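import Pool.Agent.Lib.MP_98850d_an.Bd.Main

/-!
# MP_98850d_an: bundles whose fibre carries a minimal flow

Let `p : M → B` be a locally trivial bundle over a closed connected manifold `B` (of any dimension) whose fibre `N` is a
compact metrizable space, not a point and not a circle, with a minimal flow `ψ`.  Assume that the transition maps
of the bundle send `ψ`-orbits to `ψ`-orbits and preserve their orientation (they may change the parametrisation of the
orbits, and they need not send `ψ` to itself).  Then `M` carries a minimal flow.

`e b : Trivialization N p` (Mathlib) is a local trivialization of `p`, a homeomorphism of `p ⁻¹' (e b).baseSet` onto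
`(e b).baseSet × N` over the open set `(e b).baseSet`, which contains `b`; `(e b).toOpenPartialHomeomorph.symm` is its
inverse.  `Flow τ M` (Mathlib) is a continuous action of the additive group `τ` on `M`.
-/

set_option autoImplicit false

open Bundle

universe u v w

namespace Pool.Agent.Results.MP_98850d_an.BundleMinimalFibre

theorem result (d : ℕ) (M : Type u) (B : Type v) (N : Type w)
    [TopologicalSpace M] [CompactSpace M] [TopologicalSpace.MetrizableSpace M]
    [TopologicalSpace B] [T2Space B] [CompactSpace B] [ConnectedSpace B] [ChartedSpace (EuclideanSpace ℝ (Fin d)) B]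
    [TopologicalSpace N] [CompactSpace N] [TopologicalSpace.MetrizableSpace N]
    (hpt : ¬ Subsingleton N) (hcirc : ¬ Nonempty (N ≃ₜ AddCircle (1 : ℝ)))
    (ψ : Flow ℝ N) (hψ : ∀ n : N, Dense (Set.range fun t => ψ t n))
    (p : M → B) (e : B → Trivialization N p) (he : ∀ b, b ∈ (e b).baseSet)
    (hcomp : ∀ (b c : B) (x : M), p x ∈ (e b).baseSet → p x ∈ (e c).baseSet → ∀ t : ℝ, 0 ≤ t →
      ∃ s : ℝ, 0 ≤ s ∧
        (e c ((e b).toOpenPartialHomeomorph.symm (p x, ψ t (e b x).2))).2 = ψ s (e c x).2) :
    ∃ φ : Flow ℝ M, ∀ x : M, Dense (Set.range fun t => φ t x) := by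
  have hne : Nonempty N := by
    by_contra h
    rw [not_nonempty_iff] at h
    exact hpt inferInstance
  have hfr : Pool.Agent.MP98850d.Bd.Fr ψ := by
    by_contra h
    rcases Pool.Agent.MP98850d.Bd.tPer N ψ hψ h with h1 | h1
    · exact hpt h1
    · exact hcirc h1
  exact Pool.Agent.MP98850d.Bd.main_bundle d M B N p ψ e he hfr hψ hcomp

end Pool.Agent.Results.MP_98850d_an.BundleMinimalFibre
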