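import Pool.Agent.Lib.MFG.Main

/-!
# MP_98850d_an: free minimal actions of linear groups with a central line give minimal flows

`G` is a closed subgroup of `GL_e(ℝ)` which is generated by its continuous one-parameter subgroups, `φ : ℝ → G` is a
homomorphism with central image and a closed embedding.  `G` acts continuously and freely on the compact manifold `M`,
with local sections, and all orbits are dense.  Then `M` carries a minimal flow.  `Flow ℝ M` (Mathlib) is a continuous
action of `ℝ` on `M`.
-/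

set_option autoImplicit false

open Set Topology

universe u

namespace Pool.Agent.Results.MP_98850d_an.CentralLine

theorem result (d e : ℕ) (G : Subgroup (Matrix.GeneralLinearGroup (Fin e) ℝ))
    (hG : IsClosed (G : Set (Matrix.GeneralLinearGroup (Fin e) ℝ)))
    (hgen : ∀ H : Subgroup G, (∀ γ : ℝ → G, Continuous γ → (∀ s t, γ (s + t) = γ s * γ t) → ∀ t, γ t ∈ H) → H = ⊤)
    (φ : ℝ → G) (hφ : IsClosedEmbedding φ) (hadd : ∀ s t, φ (s + t) = φ s * φ t)
    (hcen : ∀ t u, φ t * u = u * φ t) (M : Type u) [TopologicalSpace M] [T2Space M] [CompactSpace M]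
    [ChartedSpace (EuclideanSpace ℝ (Fin d)) M] [MulAction G M] [ContinuousSMul G M]
    (hfree : ∀ (u : G) (x : M), u • x = x → u = 1)
    (hsec : ∀ x₀ : M, ∃ V ∈ 𝓝 x₀, ∃ O ∈ 𝓝 (1 : G), ∃ p : M → G, ContinuousOn p V ∧
      ∀ x ∈ V, ∀ u ∈ O, u • x ∈ V → p (u • x) = p x * u⁻¹)
    (hmin : ∀ x : M, Dense (MulAction.orbit G x)) :
    ∃ ψ : Flow ℝ M, ∀ x : M, Dense (range fun t => ψ t x) :=
  Pool.Agent.MFG.mainP d e G hG hgen φ hφ hadd hcen M hfree hsec hmin

end Pool.Agent.Results.MP_98850d_an.CentralLine
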