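import Pool.Agent.Lib.MP_98850d_an.Main

/-!
# MP_98850d_an: a compact manifold carries a minimal flow if and only if it carries a minimal action of some `ℝ^n`

A compact manifold `M` (Hausdorff, compact, locally homeomorphic to `ℝ^d`) carries a minimal flow, that is a
continuous action of `ℝ` all of whose orbits are dense, if and only if for some `n` it carries a continuous action
of `ℝ^n` all of whose orbits are dense; the action is not assumed to be free or locally free.  In other words:
if finitely many commuting flows on `M` have no common closed invariant set except the empty set and `M`, then `M`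
carries a minimal flow.

`Flow τ M` (Mathlib) is a continuous action of the additive monoid `τ` on `M`: a jointly continuous map
`τ × M → M` with `φ 0 x = x` and `φ (s + t) x = φ s (φ t x)`.
-/

set_option autoImplicit false

universe u

namespace Pool.Agent.Results.MP_98850d_an.MinimalRnAction

theorem result (d : ℕ) (M : Type u) [TopologicalSpace M] [T2Space M] [CompactSpace M]
    [ChartedSpace (EuclideanSpace ℝ (Fin d)) M] :
    (∃ (n : ℕ) (a : Flow (Fin n → ℝ) M), ∀ x : M, Dense (Set.range fun u => a u x)) ↔
      ∃ φ : Flow ℝ M, ∀ x : M, Dense (Set.range fun t => φ t x) := by
  constructor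
  · rintro ⟨n, a, hmin⟩
    exact Pool.Agent.MP98850d.main_manifold d n M a hmin
  · rintro ⟨φ, hφ⟩
    refine ⟨1, { toFun := fun u x => φ (u 0) x
                 cont' := φ.continuous ((continuous_apply 0).comp continuous_fst) continuous_snd
                 map_add' := fun u v x => φ.map_add (u 0) (v 0) x
                 map_zero' := fun x => φ.map_zero_apply x }, fun x => (hφ x).mono ?_⟩
    rintro _ ⟨t, rfl⟩
    exact ⟨fun _ => t, rfl⟩

end Pool.Agent.Results.MP_98850d_an.MinimalRnAction
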